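import Mathlib
import Pool.Agent.Y224.TS.D10

/-!
# Tate classes on abelian varieties with admissible simple factors

Let `X` be an abelian variety over a finitely generated field of characteristic zero, embedded in
the field of complex numbers. Suppose that the simple abelian subvarieties `U` of `X` (over the
complex numbers) are admissible for `m ≥ 1` and `w ≥ 2`: if `U` has complex multiplication then its
dimension is at most `m`, and otherwise its dimension is at most three, or `U` has real
multiplication with relative dimension odd or two (types I and II), or the endomorphism algebra of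
`U` is an imaginary quadratic field with multiplicities `p, q ≤ w` which are coprime, or
`p = q = 2`. The number of the simple factors, their dimensions (in the case of real
multiplication) and their multiplicities are arbitrary.

Then every `ℓ`-adic Tate class on `X`, of any degree, is a `ℚ_ℓ`-linear combination of classes in the
smallest system of cohomology classes on complex abelian varieties which contains the classes of
degree zero, the Hodge classes of degree two, the Weil classes of imaginary quadratic fields on
abelian fourfolds, and on abelian varieties of dimension at most `2 w` with trivial discriminant, and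
the Hodge classes on abelian varieties whose simple factors have complex multiplication and
dimension at most `m`, and which is stable under linear combinations, cup products, pull-backs along
homomorphisms and push-forwards along projections.
-/

namespace Pool.Agent.Results.MP_640417_ag.AdmissibleFactors

open Pool.Agent.Y90.St Pool.Agent.Y90.S Pool.Agent.Y224.TS.St TensorProduct

/-- **Tate classes** on an abelian variety `X` over a finitely generated field of characteristic
zero, given by the period map `per : H → T` (`H = H_1(X, ℚ)`, `T` the tangent space), a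
polarization `E` and the representation `ρ` of the Galois group `Γ` on the Tate module `ℚ_ℓ ⊗ H`,
with the known properties of the Tate module (`IsTateModule`; `χ` is the cyclotomic character, and
`ℂ` is identified with an algebraic closure of `ℚ_ℓ`). If the simple abelian subvarieties of `X`
over `ℂ` are admissible, then each Tate class `φ` of degree `2 n` (an alternating form on the Tate
module on which a subgroup of finite index acts through `χ ^ n`) is a `ℚ_ℓ`-linear combination of
elements of the system `Generated m w`. -/
theorem result {H T : Type} [AddCommGroup H] [Module ℚ H] [AddCommGroup T] [Module ℂ T]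
    (m w : ℕ) (hm : 1 ≤ m) (hw : 2 ≤ w) (per : H →+ T) (hX : IsAV per)
    (hs : Admissible m w per) (E : H → H → ℚ) (hE : IsPolarization per E)
    (ℓ : ℕ) [Fact ℓ.Prime] [Algebra ℚ_[ℓ] ℂ] [Algebra.IsAlgebraic ℚ_[ℓ] ℂ]
    {Γ : Type} [Group Γ] (ρ : Representation ℚ_[ℓ] Γ (ℚ_[ℓ] ⊗[ℚ] H)) (χ : Γ →* ℚ_[ℓ])
    (hρ : IsTateModule per E ρ χ) {κ : Type} [Finite κ] {n : ℕ} (hκ : Nat.card κ = 2 * n)
    (φ : (ℚ_[ℓ] ⊗[ℚ] H) [⋀^κ]→ₗ[ℚ_[ℓ]] ℚ_[ℓ])
    (hφ : ∃ Δ : Subgroup Γ, Δ.FiniteIndex ∧ ∀ g ∈ Δ, ∀ v : κ → ℚ_[ℓ] ⊗[ℚ] H,
      φ (fun k => ρ g (v k)) = χ g ^ n * φ v) :
    ∃ (N : ℕ) (c : Fin N → ℚ_[ℓ]) (f : Fin N → (H [⋀^κ]→ₗ[ℚ] ℚ)),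
      (∀ j, Pool.Agent.Y90.S.Generated m w per κ (f j)) ∧
        ∀ v : κ → H, φ (fun k => 1 ⊗ₜ v k) = ∑ j, c j * ((f j v : ℚ) : ℚ_[ℓ]) :=
  Pool.Agent.Y224.TS.tate_admissible hm hw hX hs hE hρ hκ φ hφ

end Pool.Agent.Results.MP_640417_ag.AdmissibleFactors
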