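import Mathlib
import Pool.Agent.Y126.Glue
import Pool.Agent.Y126.JP.Glob

/-!
# Tate classes on all powers of abelian varieties with places of bad reduction of arbitrary toric
rank

Let `A` be an abelian variety over a finitely generated field of characteristic zero, `V = V_ℓ(A)`
its rational Tate module with the action `ρ` of the Galois group `Γ`, `χ` the cyclotomic character
and `ω` the Weil pairing of a polarization; `K` is the algebraic closure of `ℚ_ℓ` and `X = K ⊗ V`.
If `End(A) = ℤ` over the algebraic closure then `U = X` is the only strongly irreducible subspace; in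
general the conditions are imposed on each strongly irreducible subspace `U` of dimension at least
two, and different `U` can satisfy them at different places of bad reduction.

An element `γ` of `Γ` with `(γ - 1) ^ 2 = 0` is given by a place of bad semistable reduction (a
generator of the pro-`ℓ` part of an inertia group); the rank of `γ - 1` is the toric rank, which is
arbitrary here.

* First condition (`HasQuadraticUnipotents`).  For two such elements `γ`, `γ'` (for instance for two
  places of bad reduction, or `γ' = g γ g⁻¹` for any element `g` of `Γ`) we consider the operator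
  `(γ - 1) (γ' - 1)`.  The *defects* of `γ` on `U` are the rank of `γ - 1` on `U` and the algebraic
  multiplicities on `U` of the nonzero eigenvalues of these operators.  The defects have no common
  prime factor, or `U` is symplectic and one of them is two, or odd (if the weak Hodge elements
  generate, which is the case for abelian varieties by theorems of Sen and Pink).  If the image of
  Galois is open in the group of symplectic similitudes this holds for every place of bad reduction.
* Second condition (`HasFrobeniusPair`), for symplectic `U`.  Let `F` be a Frobenius element at the place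
  of bad reduction, with residue field with `q` elements.  Its eigenvalues are `1` and `q`, both with
  multiplicity the toric rank, and eigenvalues of weight one (those of the abelian part of the
  reduction).  Some eigenvalue has odd multiplicity on `U`, and the toric rank on `U` is smaller than
  `dim U / 4` or some eigenvalue of weight one has multiplicity smaller than `dim U / 8` on `U`.  For
  example, for `End(A) = ℤ` and `g ≥ 5`: some eigenvalue of weight one is simple.

The conclusion: all Tate classes on all powers of `A` are combinations of products of Tate classes of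
degree two (divisor classes, by Faltings) and of Weil classes, and of products of Tate classes of
degree two only if there are no Weil families, for instance if all `U` are self-dual (types I and II).
-/

namespace Pool.Agent.Results.MP_640417_ag.BadPlaces

open Module TensorProduct Pool.Agent.Y126.Notions

noncomputable section

variable {K X Γ : Type} [Field K] [AddCommGroup X] [Module K X] [Group Γ]

/-- The number `d` is a *defect* of `γ` on `U`: the rank of `γ - 1` on `U`, or the algebraic
multiplicity on `U` of a nonzero eigenvalue of `(γ - 1) (γ' - 1)`, for an element `γ'` of the group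
with `(γ' - 1) ^ 2 = 0`. -/
def IsDefect (R : Representation K Γ X) (U : Submodule K X) (γ : Γ) (d : ℕ) : Prop :=
  d = finrank K (U.map (R γ - 1)) ∨
    ∃ γ' : Γ, (R γ' - 1) * (R γ' - 1) = 0 ∧ ∃ a : K, a ≠ 0 ∧
      d = finrank K (Module.End.maxGenEigenspace ((R γ - 1) * (R γ' - 1)) a ⊓ U : Submodule K X)

/-- There is an element `γ` of the group with `(γ - 1) ^ 2 = 0` such that the defects of `γ` on `U` have
no common prime factor, or `U` is symplectic and one of the defects is two, or one is odd and the weak
Hodge elements generate. -/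
def HasQuadraticUnipotents (R : Representation K Γ X) (χ : Γ →* K) (U : Submodule K X) : Prop :=
  ∃ γ : Γ, (R γ - 1) * (R γ - 1) = 0 ∧
    ((∀ p : ℕ, p.Prime → ∃ d, IsDefect R U γ d ∧ ¬ p ∣ d) ∨
      (IsSymplectic R χ U ∧ ∃ d, IsDefect R U γ d ∧ (d = 2 ∨ (Odd d ∧ WeakHodgeGenerate R χ))))

/-- The element `γ` is a square-zero unipotent element, `F` is a diagonalizable element that maps
`γ - 1` to `χ F` times itself under conjugation, and the eigenvalues of `F` are: `1`; elements `a` of
weight `w a = 1 / 2`; and `χ F`, with eigenvectors in the image of `γ - 1`.  Here the weight `w` is a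
homomorphism from the multiplicative group of `K` to the rational numbers with `w (χ F) = 1`. -/
def IsMonodromyPair (R : Representation K Γ X) (χ : Γ →* K) (w : Additive Kˣ →+ ℚ) (γ F : Γ) :
    Prop :=
  (R γ - 1) * (R γ - 1) = 0 ∧ R F * (R γ - 1) = χ F • ((R γ - 1) * R F) ∧
    ∃ (n : ℕ) (b : Basis (Fin n) K X) (a : Fin n → Kˣ) (c : Kˣ),
      (c : K) = χ F ∧ w (Additive.ofMul c) = 1 ∧ (∀ i, R F (b i) = (a i : K) • b i) ∧
      ∀ i, a i = 1 ∨ w (Additive.ofMul (a i)) = 1 / 2 ∨
        (a i = c ∧ b i ∈ LinearMap.range (R γ - 1))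

/-- The algebraic multiplicity of the eigenvalue `a` of `F` on the subspace `U`. -/
def mult (R : Representation K Γ X) (F : Γ) (U : Submodule K X) (a : K) : ℕ :=
  finrank K (Module.End.maxGenEigenspace (R F) a ⊓ U : Submodule K X)

/-- The subspace `U` is symplectic, the weak Hodge elements generate and there are `γ` and `F` as above,
where `F` maps `U` to `U` and `γ` is non-trivial on `U`, such that some eigenvalue of `F` on `U` has odd
multiplicity and either the rank of `γ - 1` on `U` is smaller than a fourth of the dimension of `U`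
or some eigenvalue of weight `1 / 2` of `F` on `U` has multiplicity smaller than an eighth of it. -/
def HasFrobeniusPair (R : Representation K Γ X) (χ : Γ →* K) (U : Submodule K X) : Prop :=
  IsSymplectic R χ U ∧ WeakHodgeGenerate R χ ∧
    ∃ (w : Additive Kˣ →+ ℚ) (γ F : Γ), IsMonodromyPair R χ w γ F ∧ (∀ u ∈ U, R F u ∈ U) ∧
      U.map (R γ - 1) ≠ ⊥ ∧ (∃ a : K, Odd (mult R F U a)) ∧
      (4 * finrank K (U.map (R γ - 1)) < finrank K U ∨
        ∃ a : Kˣ, w (Additive.ofMul a) = 1 / 2 ∧ 0 < mult R F U a ∧
          8 * mult R F U a < finrank K U)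

/-- Every strongly irreducible subspace of dimension at least two satisfies one of the two
conditions on places of bad reduction. -/
def HasBadPlaces (R : Representation K Γ X) (χ : Γ →* K) : Prop :=
  ∀ U, StronglyIrreducible R U → 2 ≤ finrank K U →
    HasQuadraticUnipotents R χ U ∨ HasFrobeniusPair R χ U

open Pool.Agent.H204R3.SP Pool.Agent.H204R3.GP Pool.Agent.W522.U

theorem result (ℓ : ℕ) [Fact ℓ.Prime] {V Γ : Type} [AddCommGroup V] [Module ℚ_[ℓ] V]
    [FiniteDimensional ℚ_[ℓ] V] [Group Γ] (ρ : Representation ℚ_[ℓ] Γ V) (χ : Γ →* ℚ_[ℓ])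
    (ω : V →ₗ[ℚ_[ℓ]] V →ₗ[ℚ_[ℓ]] ℚ_[ℓ]) (halt : ∀ v, ω v v = 0)
    (hnondeg : ∀ u, (∀ v, ω v u = 0) → u = 0)
    (hω : ∀ s u v, ω (ρ s u) (ρ s v) = χ s * ω u v)
    (hsemisimple : PotentiallySemisimple ρ)
    (hplaces : HasBadPlaces (extend (AlgebraicClosure ℚ_[ℓ]) ρ)
      ((algebraMap ℚ_[ℓ] (AlgebraicClosure ℚ_[ℓ]) : ℚ_[ℓ] →* _).comp χ))
    (hlines : NoSelfDualLines (extend (AlgebraicClosure ℚ_[ℓ]) ρ)
      ((algebraMap ℚ_[ℓ] (AlgebraicClosure ℚ_[ℓ]) : ℚ_[ℓ] →* _).comp χ))
    (htwists : NoProperTwists (extend (AlgebraicClosure ℚ_[ℓ]) ρ)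
      ((algebraMap ℚ_[ℓ] (AlgebraicClosure ℚ_[ℓ]) : ℚ_[ℓ] →* _).comp χ)) :
    GeneratedByWeilClasses (AlgebraicClosure ℚ_[ℓ]) ρ χ ω ∧
    ((∀ (Q : Type) [Fintype Q] [Nonempty Q]
      (L : Q → Submodule (AlgebraicClosure ℚ_[ℓ]) (AlgebraicClosure ℚ_[ℓ] ⊗[ℚ_[ℓ]] V)),
      ¬IsWeilFamily (extend (AlgebraicClosure ℚ_[ℓ]) ρ)
        ((algebraMap ℚ_[ℓ] (AlgebraicClosure ℚ_[ℓ]) : ℚ_[ℓ] →* _).comp χ) L) →
      GeneratedInDegreeTwo ρ χ) := by
  have hl1 : ∀ u, (∀ v, bcb (AlgebraicClosure ℚ_[ℓ]) ω u v = 0) → u = 0 := fun u hu =>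
    bcb_nondeg_left ω hnondeg (left_nondeg ω halt hnondeg) u hu
  have hinv := bcb_inv (Ω := AlgebraicClosure ℚ_[ℓ]) ρ χ ω hω
  have hpr : HasProj (bcr ρ (AlgebraicClosure ℚ_[ℓ])) := hasProj_bcr ρ _ hsemisimple
  refine Pool.Agent.Y126.Glue.conclusion ℓ ρ χ ω halt hnondeg hω hsemisimple ?_ hlines htwists
  intro U hU h2
  rcases hplaces U hU h2 with ⟨γ, hγ, h | ⟨hs, d, hd, h⟩⟩ | ⟨hs, hh, w, γ, F,
    ⟨hγ, hFN, n, b, a, c, hc, hwc, hF, ha⟩, hFU, hN0, hodd, hsmall⟩
  · exact Pool.Agent.Y126.Toric.one_of_gcd (bcb _ ω) hl1 hinv hpr hU hγ h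
  · exact Pool.Agent.Y126.Toric.one_of_alt (bcb _ ω) hl1 hinv hpr hU hs hγ hd
      (h.imp_right fun h => ⟨h.1, fun P hP' => h.2 P fun x hx => hP' x hx.2 hx.1⟩)
  · refine Pool.Agent.Y126.JP.one_of_frob (bcb _ ω) hl1 hinv hpr hU hs
      (fun P hP' => hh P fun x hx => hP' x hx.2 hx.1) hγ hN0 hFN hFU hc hwc hF ha hodd ?_
    rcases hsmall with h | ⟨t, ht, h1, h2⟩
    · left
      intro d hd
      have h3 := hd _ (Or.inl rfl)
      refine lt_of_le_of_lt (Nat.mul_le_mul_left 4 (Nat.le_of_dvd ?_ h3)) h
      rw [Nat.pos_iff_ne_zero, ne_eq, Submodule.finrank_eq_zero]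
      exact hN0
    · right
      exact ⟨t, ht, fun h3 => h1.ne' (Submodule.finrank_eq_zero.2 h3), h2⟩

end

end Pool.Agent.Results.MP_640417_ag.BadPlaces
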