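import Pool.Agent.Y142.SI.Fin
import Pool.Agent.Y405.ZO.Frob
import Pool.Agent.Y484.ZI.IntRes
import Pool.Agent.Y726.ZI.Cheb
import Pool.Agent.Y681.ZI.Dens
import Pool.Agent.Y537.ZI.Multi
import Pool.Agent.Y614.ZD.Badd
import Pool.Agent.Y100.ZD.Sub
import Pool.Agent.Y255.SS.LF
import Pool.Agent.Y297.SS.CF
import Pool.Agent.Y708.SS.Loc
import Pool.Agent.Y936.SS.Logr
import Pool.Agent.Y518.SS.Krs
import Pool.Agent.Y737.SS.Chara
import Pool.Agent.Y932.SI.Subf
import Pool.Agent.Y421.SI.EF
import Pool.Agent.Y641.SI.Trd
import Pool.Agent.Y949.SI.Ende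

/-!
# The Tate conjecture for endomorphisms of motives at 100 percent of the primes `ℓ`

Let `X` be a smooth projective variety over a finitely generated field `k` of characteristic zero and
let `V_ℓ`, for all primes `ℓ`, be a direct factor of the `ℓ`-adic cohomology of `X` which is cut out by
algebraic correspondences and on which a number field `E`, Galois over `ℚ`, acts by correspondences
(`E = ℚ` is allowed); `V_ℓ` is free of rank `n` over `E ⊗ ℚ_ℓ`, so that the trace of `a` on `V_ℓ` is `n`
times the trace of `a` in `ℚ`. The representation comes from a profinite group `Γ` (the fundamental group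
of a model of `X`, or the Galois group of `k`). If `k` is not a number field, a closed point of the generic
fibre of the model gives a homomorphism `s` from the Galois group of a number field `K` to `Γ`. At the
places `v` of good reduction the characteristic polynomial `P_v` of the geometric Frobenius element is a
polynomial with rational coefficients which does not depend on `ℓ` (Deligne).

The space `End(V_ℓ)` is a direct factor of the cohomology of `X × X` (Poincaré duality). The Tate
conjecture for this factor, over all finite extensions of `k`, says that the endomorphisms of `V_ℓ` which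
commute with an open subgroup of the Galois group are spanned by algebraic correspondences; for abelian
varieties and `H^1` this and the semisimplicity of `V_ℓ` is the theorem of Faltings.

**Theorem.** Let `u_0, ..., u_m` be places of good reduction such that the roots of `P_{u_i}` are simple
and no quotient of two different roots is a root of unity, and let `F` be the intersection of the splitting
fields of these polynomials. Suppose that for every automorphism `g` of the algebraic closure of `ℚ` (only
the restriction of `g` to `F` matters; let `f` be the order of `g` on `E`)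
* for every `d < N = n [E : ℚ]`, `d > 0`, which is not divisible by `n f`, there are a place `v` as above
and an automorphism `w` which agrees with `g` on `F` such that no set of `d` roots of `P_v` is stable
under `w`;
* there are a place `v` as above and an automorphism `w` which agrees with `g` on `F` such that `w ^ f`
has a fixed point in every nonempty set of roots of `P_v` which is stable under `w` and whose
number of elements is divisible by `n f`.
Then for all prime numbers `ℓ` outside of a set of natural density zero and all open subgroups `U` of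
`Γ`: the endomorphisms of `V_ℓ` which commute with `U` are the elements of `E ⊗ ℚ_ℓ`, and `V_ℓ` is a
semisimple representation of `U`.

These are conditions on finitely many Frobenius polynomials. If `E = ℚ` and `F = ℚ` then they say that for
every `d` with `0 < d < N` there are `v` and `w` such that no set of `d` roots of `P_v` is
stable under `w`, and the conclusion is that `V_ℓ` is absolutely irreducible over all open
subgroups for 100 percent of the `ℓ`. In general one expects that the Galois group of `P_v` is the Weyl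
group of the monodromy group, extended by the Galois group of `F`. The conditions can be satisfied if
this group has the right elements: for example (`E = ℚ`) for symplectic groups, for orthogonal groups in
even dimension `N ≥ 6`, for the representation of `E_7` of dimension `56`, and with coefficients in a CM
field `E` for unitary groups of rank `n ≥ 3` and for the representation of `E_6` of dimension `27`;
unitary groups occur for the middle cohomology of cyclic coverings of prime degree of a projective
space. No polarization and no information on the monodromy groups, on the Hodge numbers or on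
the local behaviour at `ℓ` is used. If the cohomology of `X` is algebraic outside of `V` (complete
intersections, cyclic coverings) and `n [E : ℚ] > 1` then one gets the Tate conjecture for `X × X` in all
codimensions and over all finite extensions of `k`, for 100 percent of the primes `ℓ`.

Idea of the proof. A subspace of dimension `d` which is stable under an open subgroup gives a set of `d`
roots of `P_v` which is stable under the Frobenius element at `ℓ`, for every `v` as above, and elements
which commute with an open subgroup are polynomials in the Frobenius element at `v`. If the Frobenius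
element `g` at `ℓ` has order `f` on `E` and acts on the roots of `P_v` and of `P_v'` as in the two
conditions then all stable subspaces have dimensions divisible by `n f`, and the commutant is a product of
at most `N / (n f)` fields of degree at most `f`, so that its dimension is at most `[E : ℚ]`. To have such
`v` for almost all `ℓ` one needs places `v` for which the behaviour of `ℓ` is sufficiently independent. They
are constructed from the given ones by approximation at auxiliary primes `p` with prescribed Frobenius
elements (Chebotarev): the logarithm of the Frobenius element at the given place is a tangent vector of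
the `p`-adic image, so that there are places `v` whose Frobenius elements are `p`-adically close to `1`
in this direction, for several primes `p` at the same time, and by Krasner's lemma the Galois
group of `ℚ_p` acts on the roots of `P_v` as on those of the given polynomial. This gives new places `v` with
the same classes and with splitting fields which are independent over `F` of the fields used before.
-/

set_option autoImplicit false

namespace Pool.Agent.Results.MP_640417_ag.EndomorphismsDensityOne

open Matrix Polynomial Filter Topology NumberField IsDedekindDomain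

/-- the absolute Galois group of `K`, with its profinite (Krull) topology -/
abbrev AbsoluteGaloisGroup (K : Type) [Field K] : Type := Gal(AlgebraicClosure K/K)

/-- `σ` is an (arithmetic) Frobenius element at the prime `v` of the number field `K`: for some prime
`Q` of the algebraic closure above `v` it acts on the residue field as `x ↦ x ^ N(v)` -/
def IsFrobenius {K : Type} [Field K] [NumberField K] (v : HeightOneSpectrum (𝓞 K))
    (σ : AbsoluteGaloisGroup K) : Prop :=
  ∃ Q : Ideal (𝓞 (AlgebraicClosure K)), Q.IsMaximal ∧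
    Q.comap (algebraMap (𝓞 K) (𝓞 (AlgebraicClosure K))) = v.asIdeal ∧
    ∀ x : 𝓞 (AlgebraicClosure K), σ • x - x ^ Ideal.absNorm v.asIdeal ∈ Q

/-- `ρ` is a continuous representation of `Γ` on `ℚ_ℓ ^ N`; for all `v ∉ S` which are prime to `ℓ` the
characteristic polynomial of (the image under `s` of) the geometric Frobenius elements `σ⁻¹` (`σ`
arithmetic) at `v` is `P v` -/
def IsCompatible (K : Type) [Field K] [NumberField K] {Γ : Type} [Group Γ] [TopologicalSpace Γ]
    (s : AbsoluteGaloisGroup K →* Γ) (N ℓ : ℕ) [Fact ℓ.Prime]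
    (ρ : Γ →* Matrix (Fin N) (Fin N) ℚ_[ℓ])
    (S : Set (HeightOneSpectrum (𝓞 K))) (P : HeightOneSpectrum (𝓞 K) → ℚ[X]) : Prop :=
  Continuous ρ ∧ ∀ v ∉ S, (ℓ : 𝓞 K) ∉ v.asIdeal → ∀ σ : AbsoluteGaloisGroup K, IsFrobenius v σ →
    (ρ (s σ⁻¹)).charpoly = (P v).map (algebraMap ℚ ℚ_[ℓ])

/-- the roots of `P v` are simple, and different roots have different `n`-th powers for all `n > 0` -/
def IsRegularPlace {K : Type} [Field K] [NumberField K]
    (S : Set (HeightOneSpectrum (𝓞 K))) (P : HeightOneSpectrum (𝓞 K) → ℚ[X])
    (v : HeightOneSpectrum (𝓞 K)) : Prop :=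
  v ∉ S ∧ (P v).Separable ∧ ∀ n : ℕ, 0 < n → ∀ x y : ℂ,
    aeval x (P v) = 0 → aeval y (P v) = 0 → x ^ n = y ^ n → x = y

/-- the splitting field of `Q` in the algebraic closure of `ℚ` -/
noncomputable def splittingField (Q : ℚ[X]) : Set (AlgebraicClosure ℚ) :=
  (IntermediateField.adjoin ℚ {x : AlgebraicClosure ℚ | aeval x Q = 0} :
    IntermediateField ℚ (AlgebraicClosure ℚ))

/-- the order of the restriction of `g` to the (finite, normal) field `E` -/
noncomputable def orderOn (E : IntermediateField ℚ (AlgebraicClosure ℚ))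
    (g : AbsoluteGaloisGroup ℚ) : ℕ :=
  sInf {k : ℕ | 0 < k ∧ ∀ a ∈ E, (g ^ k) a = a}

/-- `T` is a set of roots of `Q` which is stable under `w` -/
def IsStableSet (w : AbsoluteGaloisGroup ℚ) (Q : ℚ[X]) (T : Set (AlgebraicClosure ℚ)) : Prop :=
  (∀ x ∈ T, aeval x Q = 0) ∧ ∀ x ∈ T, w x ∈ T

/-- for every open subgroup `U` of `Γ`: all matrices which commute with `ρ(U)` are in the `ℚ_ℓ`-span of
the image of `E`, and every subspace stable under `U` has a complement stable under `U` -/
def EndomorphismsFrom {Γ : Type} [Group Γ] [TopologicalSpace Γ] {N : ℕ} (ℓ : ℕ) [Fact ℓ.Prime]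
    (E : IntermediateField ℚ (AlgebraicClosure ℚ)) (ρ : Γ →* Matrix (Fin N) (Fin N) ℚ_[ℓ])
    (ε : E →+* Matrix (Fin N) (Fin N) ℚ_[ℓ]) : Prop :=
  ∀ U : Subgroup Γ, IsOpen (U : Set Γ) →
    (∀ X, (∀ τ ∈ U, X * ρ τ = ρ τ * X) → X ∈ Submodule.span ℚ_[ℓ] (Set.range ε)) ∧
    ∀ W : Submodule ℚ_[ℓ] (Fin N → ℚ_[ℓ]), (∀ σ ∈ U, ∀ w ∈ W, ρ σ *ᵥ w ∈ W) →
    ∃ W' : Submodule ℚ_[ℓ] (Fin N → ℚ_[ℓ]), (∀ σ ∈ U, ∀ w ∈ W', ρ σ *ᵥ w ∈ W') ∧ IsCompl W W'

/-- the set `A` of prime numbers has natural density zero -/
def HasDensityZero (A : Set ℕ) : Prop :=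
  Tendsto (fun n : ℕ => (Nat.card {ℓ : ℕ // ℓ ≤ n ∧ ℓ ∈ A} : ℝ) / (Nat.primeCounting n : ℝ))
    atTop (𝓝 0)

/-- **The endomorphisms of a motive with coefficients in `E` at 100 percent of the primes `ℓ`.** -/
theorem result (K : Type) [Field K] [NumberField K] (Γ : Type) [Group Γ] [TopologicalSpace Γ]
    [IsTopologicalGroup Γ] [CompactSpace Γ] (s : AbsoluteGaloisGroup K →* Γ) (hs : Continuous s)
    (N : ℕ) (S : Set (HeightOneSpectrum (𝓞 K))) (hS : S.Finite)
    (P : HeightOneSpectrum (𝓞 K) → ℚ[X])
    (ρ : ∀ (ℓ : ℕ) [Fact ℓ.Prime], Γ →* Matrix (Fin N) (Fin N) ℚ_[ℓ])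
    (hρ : ∀ (ℓ : ℕ) [Fact ℓ.Prime], IsCompatible K s N ℓ (ρ ℓ) S P)
    -- the coefficients
    (E : IntermediateField ℚ (AlgebraicClosure ℚ)) [FiniteDimensional ℚ E] [Normal ℚ E]
    (n : ℕ) (hn : 0 < n) (hN : N = n * Module.finrank ℚ E)
    (ε : ∀ (ℓ : ℕ) [Fact ℓ.Prime], E →+* Matrix (Fin N) (Fin N) ℚ_[ℓ])
    (hε : ∀ (ℓ : ℕ) [Fact ℓ.Prime] (a : E) (γ : Γ), ε ℓ a * ρ ℓ γ = ρ ℓ γ * ε ℓ a)
    (htr : ∀ (ℓ : ℕ) [Fact ℓ.Prime] (a : E),
      (ε ℓ a).trace = (n : ℚ_[ℓ]) * ((Algebra.trace ℚ E a : ℚ) : ℚ_[ℓ]))
    -- the places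
    (m : ℕ) (u : Fin (m + 1) → HeightOneSpectrum (𝓞 K)) (hu : ∀ i, IsRegularPlace S P (u i))
    (h1 : ∀ (g : AbsoluteGaloisGroup ℚ) (d : ℕ), 0 < d → d < N → ¬ n * orderOn E g ∣ d →
      ∃ (v : HeightOneSpectrum (𝓞 K)) (w : AbsoluteGaloisGroup ℚ), IsRegularPlace S P v ∧
        (∀ x, (∀ i, x ∈ splittingField (P (u i))) → w x = g x) ∧
        ∀ T, IsStableSet w (P v) T → T.ncard ≠ d)
    (h2 : ∀ g : AbsoluteGaloisGroup ℚ,
      ∃ (v : HeightOneSpectrum (𝓞 K)) (w : AbsoluteGaloisGroup ℚ), IsRegularPlace S P v ∧
        (∀ x, (∀ i, x ∈ splittingField (P (u i))) → w x = g x) ∧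
        ∀ T, IsStableSet w (P v) T → T.Nonempty → n * orderOn E w ∣ T.ncard →
          ∃ x ∈ T, (w ^ orderOn E w) x = x) :
    HasDensityZero {ℓ | ∃ _ : Fact ℓ.Prime, ¬ EndomorphismsFrom ℓ E (ρ ℓ) (ε ℓ)} := by
  -- the tasks
  have hFROB : Y142.ZO.S_FROB := Y405.ZO.t
  have hINT : Y142.ZI.S_INT := Y484.ZI.t1
  have hCHEB : Y142.ZI.S_CHEB := Y726.ZI.t1
  have hDENS2 : Y142.ZI.S_DENS2 := Y681.ZI.t hCHEB
  have hMULTI : Y142.ZI.S_MULTI := Y537.ZI.t
  have hLF : Y142.SS.S_LF := Y255.SS.t
  have hCF : Y142.SS.S_CF := Y297.SS.t hLF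
  have hLOC : Y142.SS.S_LOC := Y708.SS.Loc.t hCF
  have hLOGR : Y142.SS.S_LOGR := Y936.SS.t
  have hKRS : Y142.SS.S_KRS := Y518.SS.t
  have hCHARA : Y142.SS.S_CHARA := Y737.SS.Chara.t
  have hBADD : Y142.ZD.S_BADD := Y614.ZD.t
  have hSUB : Y142.ZD.S_SUB := Y100.ZD.t
  have hSUBF : Y142.SI.S_SUBF := Y932.SI.Subf.t hLF hCF
  have hEF : Y142.SI.S_EF := Y421.SI.EF.t hLOC
  have hTRD : Y142.SI.S_TRD := Y641.SI.t
  have hENDE : Y142.SI.S_ENDE := Y949.SI.t
  have hNpos : 0 < N := by
    rw [hN]
    exact Nat.mul_pos hn Module.finrank_pos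
  have hsys' : ∀ (ℓ : ℕ) [Fact ℓ.Prime], Y142.SS.Sys K N ℓ ((ρ ℓ).comp s) S P := fun ℓ _ =>
    ⟨(hρ ℓ).1.comp hs, fun v hv hvℓ σ hσ => (hρ ℓ).2 v hv hvℓ σ hσ⟩
  have hnice : ∀ v, IsRegularPlace S P v → Y142.ZS.NiceP S P v := fun v hv =>
    Y142.SS.nice_of_complexA (fun ℓ _ => (ρ ℓ).comp s) hsys' hv.1 hv.2.1 hv.2.2
  have hLf : ∀ (i : Fin (m + 1)) (x : AlgebraicClosure ℚ),
      x ∈ Y142.ZI.Lf (P (u i)) → x ∈ splittingField (P (u i)) := by
    intro i x hx
    have h2 : (P (u i)).rootSet (AlgebraicClosure ℚ) =
        {x : AlgebraicClosure ℚ | aeval x (P (u i)) = 0} := by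
      ext y
      exact mem_rootSet_of_ne (hu i).2.1.ne_zero
    unfold Y142.ZI.Lf at hx
    rw [h2] at hx
    exact hx
  have hA : ∀ g w : AbsoluteGaloisGroup ℚ,
      (∀ x, (∀ i, x ∈ splittingField (P (u i))) → w x = g x) →
      w⁻¹ * g ∈ Subgroup.closure (⋃ i, Y142.SS.Fix (P (u i))) := by
    intro g w hw
    refine Y142.SS.field_mem _ (fun i => (hu i).2.1.ne_zero) fun x hx => ?_
    rw [AlgEquiv.mul_apply, ← hw x fun i => hLf i x (hx i), ← AlgEquiv.mul_apply, inv_mul_cancel,
      AlgEquiv.one_apply]
  refine Y142.SI.densitySI hLOC hLOGR hKRS hCHARA hMULTI hFROB hINT hDENS2 hBADD hSUB hSUBF hEF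
    hTRD hENDE hS s hs ρ hρ E inferInstance inferInstance n hn hN ε hε htr u
    (fun i => hnice _ (hu i)) ?_ ?_
  · intro g d hd hdN hnd
    obtain ⟨v, w, hv, hw, hT⟩ := h1 g d hd hdN hnd
    exact ⟨v, hnice v hv, w, fun T hT1 hT2 => hT T ⟨hT1, hT2⟩, hA g w hw⟩
  · intro g
    obtain ⟨v, w, hv, hw, hT⟩ := h2 g
    exact ⟨v, hnice v hv, w, fun T hT1 hne hT2 hd => hT T ⟨hT1, hT2⟩ hne hd, hA g w hw⟩

end Pool.Agent.Results.MP_640417_ag.EndomorphismsDensityOne
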