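import Mathlib
import Pool.Agent.Y126.JP.Glob2

/-!
# Tate classes on all powers of abelian varieties with a Frobenius element with few coincidences
between the ratios of its eigenvalues

Let `A` be an abelian variety of dimension `g` over a finitely generated field of characteristic
zero, `V = V_ℓ(A)` its rational Tate module with the action `ρ` of the Galois group `Γ`, `χ` the
cyclotomic character and `ω` the Weil pairing of a polarization; `K` is the algebraic closure of `ℚ_ℓ`
and `X = K ⊗ V`.

If `End(A) = ℤ` over the algebraic closure then `X` is strongly irreducible.  Let `F` be a power of a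
Frobenius element at a place of good reduction, with eigenvalues `a i` on `X`, and `W` a subgroup of
the multiplicative group of `K`.  For a simple eigenvalue `a`, a ratio `a' / a` of eigenvalues is also
equal to `(q / a) / (q / a')`, hence it occurs at least twice as a ratio, if `a' ≠ q / a`.  Examples for
the hypothesis below, for `g ≥ 5`:

* `W = 1`: some eigenvalue `a` is simple, and for each eigenvalue `a' ≠ a` the ratio `a' / a` occurs
  as a ratio of eigenvalues less than `√(2 g)` and less than `g / 2` times.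
* `W` is the group of the elements of slope zero and the reduction is ordinary: `g` is odd and, for
  some unit eigenvalue `a` and each unit eigenvalue `a'`, the number of pairs of unit eigenvalues with
  product `a a'` is less than `g / 2`.
* `W` is the group of the elements of integral slope: the slopes are `0`, `1 / 2` and `1`, `F` is a
  scalar on the part of slope `1 / 2` and some unit eigenvalue is simple.  This holds for example if
  the reduction is isogenous, over a finite extension, to the product of a nonzero supersingular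
  abelian variety and of an ordinary geometrically simple one.  There is no condition on the
  `p`-rank.
-/

namespace Pool.Agent.Results.MP_640417_ag.FewFrobeniusRatios

open Module TensorProduct Pool.Agent.Y126.Notions

noncomputable section

variable {K X Γ : Type} [Field K] [AddCommGroup X] [Module K X] [Group Γ]

/-- The multiplicity of `c` in the family `a`. -/
def mult {n : ℕ} (a : Fin n → Kˣ) (c : Kˣ) : ℕ := Nat.card {i // a i = c}

/-- The number of times that `ρ` occurs as a ratio of members of the family `a`: the sum, over all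
`c`, of the minimum of the multiplicities of `c` and of `c ρ`. -/
def coincidences {n : ℕ} (a : Fin n → Kˣ) (ρ : Kˣ) : ℕ := ∑ᶠ c : Kˣ, min (mult a c) (mult a (c * ρ))

/-- For every `k`, the subgroup `H` is generated by the ratios `a j / a k` that it contains. -/
def IsSaturated {n : ℕ} (a : Fin n → Kˣ) (H : Subgroup Kˣ) : Prop :=
  ∀ k, Subgroup.closure {x | x ∈ H ∧ ∃ j, x = a j / a k} = H

/-- Let `a i` be the eigenvalues of `F` on `U`, with an index `i₀`, and let `W` be a subgroup of the
multiplicative group of `K`.  Each ratio `a j / a i₀` that is not in `W` occurs at most `r` times as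
a ratio of eigenvalues, where `4 r < dim U`, and either `dim U` is not divisible by `4` and some ratio
`a j / a i₀` is not in `W`, or `r ^ 2 < dim U` and for every saturated subgroup `H` of `W` some
coset of `H` contains an odd number of eigenvalues. -/
def HasFewRatios (R : Representation K Γ X) (U : Submodule K X) (F : Γ) (W : Subgroup Kˣ) : Prop :=
  ∃ (n : ℕ) (b : Basis (Fin n) K U) (a : Fin n → Kˣ) (i₀ : Fin n) (r : ℕ),
    (∀ i, R F (b i : X) = (a i : K) • (b i : X)) ∧
    (∀ j, a j / a i₀ ∉ W → coincidences a (a j / a i₀) ≤ r) ∧ 4 * r < n ∧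
    ((¬4 ∣ n ∧ ∃ j, a j / a i₀ ∉ W) ∨
      (r ^ 2 < n ∧ ∀ H ≤ W, IsSaturated a H → ∃ t : Kˣ, Odd (Nat.card {i // a i / t ∈ H})))

open Pool.Agent.H204R3.SP Pool.Agent.H204R3.GP Pool.Agent.W522.U

theorem result (ℓ : ℕ) [Fact ℓ.Prime] {V Γ : Type} [AddCommGroup V] [Module ℚ_[ℓ] V]
    [FiniteDimensional ℚ_[ℓ] V] [Group Γ] (ρ : Representation ℚ_[ℓ] Γ V) (χ : Γ →* ℚ_[ℓ])
    (ω : V →ₗ[ℚ_[ℓ]] V →ₗ[ℚ_[ℓ]] ℚ_[ℓ]) (halt : ∀ v, ω v v = 0)
    (hnondeg : ∀ u, (∀ v, ω v u = 0) → u = 0)
    (hω : ∀ s u v, ω (ρ s u) (ρ s v) = χ s * ω u v)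
    (hsemisimple : PotentiallySemisimple ρ)
    (hhodge : WeakHodgeGenerate (extend (AlgebraicClosure ℚ_[ℓ]) ρ)
      ((algebraMap ℚ_[ℓ] (AlgebraicClosure ℚ_[ℓ]) : ℚ_[ℓ] →* _).comp χ))
    (hratios : ∀ U, StronglyIrreducible (extend (AlgebraicClosure ℚ_[ℓ]) ρ) U →
      IsSymplectic (extend (AlgebraicClosure ℚ_[ℓ]) ρ)
        ((algebraMap ℚ_[ℓ] (AlgebraicClosure ℚ_[ℓ]) : ℚ_[ℓ] →* _).comp χ) U ∧
      ∃ (F : Γ) (W : Subgroup (AlgebraicClosure ℚ_[ℓ])ˣ),
        HasFewRatios (extend (AlgebraicClosure ℚ_[ℓ]) ρ) U F W) :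
    GeneratedInDegreeTwo ρ χ := by
  have hl1 : ∀ u, (∀ v, bcb (AlgebraicClosure ℚ_[ℓ]) ω u v = 0) → u = 0 := fun u hu =>
    bcb_nondeg_left ω hnondeg (left_nondeg ω halt hnondeg) u hu
  have hinv := bcb_inv (Ω := AlgebraicClosure ℚ_[ℓ]) ρ χ ω hω
  have hpr : HasProj (bcr ρ (AlgebraicClosure ℚ_[ℓ])) := hasProj_bcr ρ _ hsemisimple
  have hdual : ∀ U, StronglyIrreducible (extend (AlgebraicClosure ℚ_[ℓ]) ρ) U →
      AreDual (extend (AlgebraicClosure ℚ_[ℓ]) ρ)
        ((algebraMap ℚ_[ℓ] (AlgebraicClosure ℚ_[ℓ]) : ℚ_[ℓ] →* _).comp χ) U U := by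
    intro U hU
    obtain ⟨Δ, hΔ, B, hB, -, h⟩ := (hratios U hU).1
    exact ⟨Δ, hΔ, B, hB, h⟩
  refine (Pool.Agent.Y126.Glue.conclusion ℓ ρ χ ω halt hnondeg hω hsemisimple ?_ ?_ ?_).2 ?_
  · intro U hU _
    obtain ⟨hs, F, W, n, b, a, i₀, r, hF, hr, hr4, hodd⟩ := hratios U hU
    refine Pool.Agent.Y126.JP.one_of_grading (bcb _ ω) hl1 hinv hpr hU hs
      (fun P hP' => hhodge P fun x hx => hP' x hx.2 hx.1) hF (W := W) (i₀ := i₀) (r := r) hr hr4 ?_
    rcases hodd with h | ⟨hrr, hodd⟩
    · exact Or.inl h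
    · exact Or.inr ⟨by rw [← sq]; exact hrr, hodd⟩
  · intro U hU h1 _
    exact Pool.Agent.Y126.JP.not_line h1 (hratios U hU).1
  · intro U U' hU _ _ h
    exact absurd (hdual U hU) h
  · intro Q _ hQ L hL
    obtain ⟨q⟩ := hQ
    exact hL.2.1 q q (hdual _ (hL.1 q))

end

end Pool.Agent.Results.MP_640417_ag.FewFrobeniusRatios
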